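import Pool.Agent.Q99.HU.Stm1
import Pool.Agent.Q261.HT.NZ
import Pool.Agent.W719.BS.LLp

/-!
# Job HU-FAR of helper99: the far terms of the state sum
-/

set_option autoImplicit false

namespace Pool.Agent.Q151.HU

open Finset Filter Topology MeasureTheory
open Pool.Agent.W719.BS (LL LL_cont)
open Pool.Agent.Q99.FAL (Pc Val Pri Sol n1 n2 cor dn toR fV)
open Pool.Agent.Q99.HT
open Pool.Agent.Q99.HU
open Pool.Agent.Q224.FAL (Sol_cor sol_add sol_smul sol_cast lat)
open Pool.Agent.Q261.HT (cv_add cv_smul cv_sum)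

/-- real corners determine the fourth corner -/
theorem cor_of_cvR {β : Bool} {x y : Fin 6 → ℝ} (h : ∀ i, cv β x i = cv β y i)
    (hs : n1 x + n2 x = n1 y + n2 y) : cor x = cor y := by
  have hs' : x 0 + x 1 + x 2 + (x 3 + x 4 + x 5) = y 0 + y 1 + y 2 + (y 3 + y 4 + y 5) := hs
  have h0 : x 0 = y 0 := h 0
  have h2 : x 3 = y 3 := h 2
  cases β with
  | true =>
    have h1 : x 1 + x 4 = y 1 + y 4 := h 1
    funext j
    fin_cases j
    · exact h0
    · exact h1
    · exact h2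
    · show x 2 + x 5 = y 2 + y 5
      linarith
  | false =>
    have h1 : x 2 + x 5 = y 2 + y 5 := h 1
    funext j
    fin_cases j
    · exact h0
    · show x 1 + x 4 = y 1 + y 4
      linarith
    · exact h2
    · exact h1

theorem n1_bf (β : Bool) (x : Fin 6 → ℝ) : n1 (bf β x) = n1 x := by
  cases β
  · show x 0 + x 2 + x 1 = x 0 + x 1 + x 2
    ring
  · rfl

theorem n2_bf (β : Bool) (x : Fin 6 → ℝ) : n2 (bf β x) = n2 x := by
  cases β
  · show x 3 + x 5 + x 4 = x 3 + x 4 + x 5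
    ring
  · rfl

theorem pt_eq (x : Fin 6 → ℝ) : pt x =
    (LL (n2 x) - LL (n2 x - x 0) - LL (x 0)) + (LL (n1 x) - LL (n1 x - x 1) - LL (x 1)) +
    (LL (n1 x) - LL (n1 x - x 2) - LL (x 2)) + (LL (n1 x) - LL (n1 x - x 3) - LL (x 3)) +
    (LL (n2 x) - LL (n2 x - x 4) - LL (x 4)) + (LL (n2 x) - LL (n2 x - x 5) - LL (x 5)) := by
  have d0 : dn x 0 = n2 x := by unfold dn; rw [if_pos (by decide)]
  have d1 : dn x 1 = n1 x := by unfold dn; rw [if_neg (by decide)]
  have d2 : dn x 2 = n1 x := by unfold dn; rw [if_neg (by decide)]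
  have d3 : dn x 3 = n1 x := by unfold dn; rw [if_neg (by decide)]
  have d4 : dn x 4 = n2 x := by unfold dn; rw [if_pos (by decide)]
  have d5 : dn x 5 = n2 x := by unfold dn; rw [if_pos (by decide)]
  unfold pt
  rw [Fin.sum_univ_six, d0, d1, d2, d3, d4, d5]

theorem pt_bf (β : Bool) (x : Fin 6 → ℝ) : pt (bf β x) = pt x := by
  rw [pt_eq, pt_eq, n1_bf, n2_bf]
  cases β
  · show (LL (n2 x) - LL (n2 x - x 0) - LL (x 0)) + (LL (n1 x) - LL (n1 x - x 2) - LL (x 2)) +
      (LL (n1 x) - LL (n1 x - x 1) - LL (x 1)) + (LL (n1 x) - LL (n1 x - x 3) - LL (x 3)) +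
      (LL (n2 x) - LL (n2 x - x 5) - LL (x 5)) + (LL (n2 x) - LL (n2 x - x 4) - LL (x 4)) = _
    ring
  · rfl

theorem pt_cont : Continuous pt := by
  have h : pt = fun x => (LL (n2 x) - LL (n2 x - x 0) - LL (x 0)) +
    (LL (n1 x) - LL (n1 x - x 1) - LL (x 1)) +
    (LL (n1 x) - LL (n1 x - x 2) - LL (x 2)) + (LL (n1 x) - LL (n1 x - x 3) - LL (x 3)) +
    (LL (n2 x) - LL (n2 x - x 4) - LL (x 4)) + (LL (n2 x) - LL (n2 x - x 5) - LL (x 5)) := by
    funext x
    exact pt_eq x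
  rw [h]
  have c0 : ∀ i : Fin 6, Continuous (fun x : Fin 6 → ℝ => x i) := fun i => continuous_apply i
  have c1 : Continuous (fun x : Fin 6 → ℝ => n1 x) := ((c0 0).add (c0 1)).add (c0 2)
  have c2 : Continuous (fun x : Fin 6 → ℝ => n2 x) := ((c0 3).add (c0 4)).add (c0 5)
  have t1 : ∀ i : Fin 6, Continuous (fun x : Fin 6 → ℝ => LL (n1 x) - LL (n1 x - x i) - LL (x i)) :=
    fun i => ((LL_cont.comp c1).sub (LL_cont.comp (c1.sub (c0 i)))).sub (LL_cont.comp (c0 i))
  have t2 : ∀ i : Fin 6, Continuous (fun x : Fin 6 → ℝ => LL (n2 x) - LL (n2 x - x i) - LL (x i)) :=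
    fun i => ((LL_cont.comp c2).sub (LL_cont.comp (c2.sub (c0 i)))).sub (LL_cont.comp (c0 i))
  exact ((((((t2 0).add (t1 1)).add (t1 2)).add (t1 3)).add (t2 4)).add (t2 5))

theorem cv_bf (β : Bool) (x : Fin 6 → ℝ) (i : Fin 3) : cv β (bf β x) i = qc x i := by
  cases β <;> fin_cases i <;> rfl

theorem qc_bf (β : Bool) (x : Fin 6 → ℝ) (i : Fin 3) : qc (bf β x) i = cv β x i := by
  cases β <;> fin_cases i <;> rfl

theorem cv_contR (β : Bool) (i : Fin 3) : Continuous (fun x : Fin 6 → ℝ => cv β x i) := by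
  have c0 : ∀ i : Fin 6, Continuous (fun x : Fin 6 → ℝ => x i) := fun i => continuous_apply i
  cases β <;> fin_cases i
  · exact c0 0
  · exact (c0 2).add (c0 5)
  · exact c0 3
  · exact c0 0
  · exact (c0 1).add (c0 4)
  · exact c0 3

theorem cv_smulR (β : Bool) (r : ℝ) (x : Fin 6 → ℝ) (i : Fin 3) :
    cv β (r • x) i = r * cv β x i := by
  cases β <;> fin_cases i
  · rfl
  · show r * x 2 + r * x 5 = r * (x 2 + x 5)
    ring
  · rfl
  · rfl
  · show r * x 1 + r * x 4 = r * (x 1 + x 4)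
    ring
  · rfl

theorem cv_castR (β : Bool) (x : Fin 6 → ℤ) (i : Fin 3) :
    cv β (fun j => ((x j : ℤ) : ℝ)) i = ((cv β x i : ℤ) : ℝ) := by
  cases β <;> fin_cases i
  · rfl
  · show ((x 2 : ℤ) : ℝ) + ((x 5 : ℤ) : ℝ) = ((x 2 + x 5 : ℤ) : ℝ)
    push_cast
    ring
  · rfl
  · rfl
  · show ((x 1 : ℤ) : ℝ) + ((x 4 : ℤ) : ℝ) = ((x 1 + x 4 : ℤ) : ℝ)
    push_cast
    ring
  · rfl

/-- the real homogeneous solutions -/
def SolR (D : List Pc) (a0 : Fin D.length → Fin 6 → ℝ) (h0 : Sol D a0 [0, 0] 1) :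
    Submodule ℝ (Fin D.length → Fin 6 → ℝ) where
  carrier := {δ | Sol D δ [0, 0] 0}
  zero_mem' := by
    have := sol_smul Pool.Agent.Q237.FAL.task_SO 0 h0
    simpa using this
  add_mem' := by
    intro a b ha hb
    have := sol_add Pool.Agent.Q237.FAL.task_SO ha hb
    simpa using this
  smul_mem' := by
    intro r a ha
    have := sol_smul Pool.Agent.Q237.FAL.task_SO r ha
    simpa using this

theorem Sol_closed {D : List Pc} {a : Fin D.length → Fin 6 → ℝ} (ha : Sol D a [0, 0] 1) :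
    IsClosed {x : Fin D.length → Fin 6 → ℝ | Sol D x [0, 0] 1} := by
  have hSO := Pool.Agent.Q237.FAL.task_SO
  have h1 : IsClosed ((SolR D a ha : Submodule ℝ (Fin D.length → Fin 6 → ℝ)) :
      Set (Fin D.length → Fin 6 → ℝ)) := Submodule.closed_of_finiteDimensional _
  have h2 : {x : Fin D.length → Fin 6 → ℝ | Sol D x [0, 0] 1} =
      (fun x => x - a) ⁻¹' ((SolR D a ha : Submodule ℝ (Fin D.length → Fin 6 → ℝ)) :
      Set (Fin D.length → Fin 6 → ℝ)) := by
    ext x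
    constructor
    · intro hx
      have h3 := sol_add hSO hx (sol_smul hSO (-1) ha)
      have e : x + (-1 : ℝ) • a = x - a := by
        rw [neg_one_smul]
        exact (sub_eq_add_neg x a).symm
      rw [e] at h3
      have e2 : (1 : ℝ) + -1 * 1 = 0 := by ring
      rw [e2] at h3
      exact h3
    · intro hx
      have hx' : Sol D (x - a) [0, 0] (0 : ℝ) := hx
      have h3 := sol_add hSO hx' ha
      rw [sub_add_cancel, zero_add] at h3
      exact h3
  rw [h2]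
  exact h1.preimage (continuous_id.sub continuous_const)

/-- the gap on the far part of the polytope -/
theorem gap {D : List Pc} {a : Fin D.length → Fin 6 → ℝ} (ha : Sol D a [0, 0] 1) (hDm : Dm D a)
    (β : Fin D.length → Bool) (δ' : ℝ) (hδ' : 0 < δ') : ∃ c3 : ℝ, 0 < c3 ∧
    ∀ x : Fin D.length → Fin 6 → ℝ, (∀ s i, 0 ≤ x s i) → Sol D x [0, 0] 1 →
      (∃ s i, δ' ≤ |cv (β s) (x s) i - cv (β s) (a s) i|) → ∑ s, pt (x s) ≤ fV a - c3 := by
  have hSO := Pool.Agent.Q237.FAL.task_SO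
  obtain ⟨K, hK⟩ : ∃ K : Set (Fin D.length → Fin 6 → ℝ), K = {x | (∀ s i, 0 ≤ x s i) ∧
    Sol D x [0, 0] 1 ∧ ∃ s i, δ' ≤ |cv (β s) (x s) i - cv (β s) (a s) i|} := ⟨_, rfl⟩
  have hKc : IsCompact K := by
    have h1 : IsClosed K := by
      have e : K = ((⋂ s, ⋂ i, {x : Fin D.length → Fin 6 → ℝ | 0 ≤ x s i}) ∩
        {x | Sol D x [0, 0] 1}) ∩ ⋃ s, ⋃ i, {x : Fin D.length → Fin 6 → ℝ |
          δ' ≤ |cv (β s) (x s) i - cv (β s) (a s) i|} := by
        rw [hK]
        ext x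
        simp only [Set.mem_ofPred_eq, Set.mem_inter_iff, Set.mem_iInter, Set.mem_iUnion]
        tauto
      rw [e]
      refine IsClosed.inter (IsClosed.inter ?_ (Sol_closed ha)) ?_
      · refine isClosed_iInter fun s => isClosed_iInter fun i => ?_
        exact isClosed_le continuous_const
          ((continuous_apply i).comp (continuous_apply s))
      · refine isClosed_iUnion_of_finite fun s => isClosed_iUnion_of_finite fun i => ?_
        refine isClosed_le continuous_const ?_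
        exact (((cv_contR (β s) i).comp (continuous_apply s)).sub continuous_const).abs
    have h2 : K ⊆ Set.Icc (0 : Fin D.length → Fin 6 → ℝ) 1 := by
      intro x hx
      rw [hK] at hx
      obtain ⟨hx0, hx1, _⟩ := hx
      have hs := ((hSO.1 ℝ D _ [0, 0] _).mp hx1).1
      constructor
      · intro s i
        exact hx0 s i
      · intro s i
        have h3 := hs s
        have h3' : x s 0 + x s 1 + x s 2 + (x s 3 + x s 4 + x s 5) = 1 := h3
        have g0 := hx0 s 0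
        have g1 := hx0 s 1
        have g2 := hx0 s 2
        have g3 := hx0 s 3
        have g4 := hx0 s 4
        have g5 := hx0 s 5
        fin_cases i
        · show x s 0 ≤ 1
          linarith
        · show x s 1 ≤ 1
          linarith
        · show x s 2 ≤ 1
          linarith
        · show x s 3 ≤ 1
          linarith
        · show x s 4 ≤ 1
          linarith
        · show x s 5 ≤ 1
          linarith
    exact isCompact_Icc.of_isClosed_subset h1 h2
  rcases K.eq_empty_or_nonempty with hKe | hKn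
  · refine ⟨1, one_pos, fun x h1 h2 h3 => ?_⟩
    have : x ∈ K := by rw [hK]; exact ⟨h1, h2, h3⟩
    rw [hKe] at this
    exact absurd this (Set.notMem_empty x)
  · have hcont : Continuous (fun x : Fin D.length → Fin 6 → ℝ => ∑ s, pt (x s)) :=
      continuous_finsetSum _ fun s _ => pt_cont.comp (continuous_apply s)
    obtain ⟨x, hx, hmax⟩ := hKc.exists_isMaxOn hKn hcont.continuousOn
    have hxa : x ≠ a := by
      rintro rfl
      rw [hK] at hx
      obtain ⟨_, _, s, i, h⟩ := hx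
      rw [sub_self, abs_zero] at h
      linarith
    have hx' := hx
    rw [hK] at hx'
    have h1 := hDm x hx'.1 hx'.2.1 hxa
    refine ⟨fV a - ∑ s, pt (x s), by linarith, fun y h2 h3 h4 => ?_⟩
    have h5 : y ∈ K := by rw [hK]; exact ⟨h2, h3, h4⟩
    have h6 := hmax h5
    simp only [Set.mem_ofPred_eq] at h6
    linarith

/-- the linear map of a network -/
noncomputable def lam {c d : ℕ} (X : Nw c d) : (Fin d → ℝ) →ₗ[ℝ] (Fin c → Fin 3 → ℝ) where
  toFun t s i := ∑ j, t j * X.E j s i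
  map_add' t t' := by
    funext s i
    simp only [Pi.add_apply, add_mul, Finset.sum_add_distrib]
  map_smul' r t := by
    funext s i
    simp only [Pi.smul_apply, smul_eq_mul, RingHom.id_apply, Finset.mul_sum]
    exact Finset.sum_congr rfl fun j _ => by ring

theorem lam_bound {c d : ℕ} (X : Nw c d)
    (inj : ∀ t : Fin d → ℝ, (∀ s i, ∑ j, t j * X.E j s i = 0) → t = 0) :
    ∃ K : ℝ, 0 < K ∧ ∀ t : Fin d → ℝ, ‖t‖ ≤ K * ‖lam X t‖ := by
  have hker : LinearMap.ker (lam X) = ⊥ := by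
    rw [LinearMap.ker_eq_bot']
    intro t ht
    exact inj t (fun s i => congrFun (congrFun ht s) i)
  obtain ⟨K, hK, h⟩ := LinearMap.exists_antilipschitzWith (lam X) hker
  refine ⟨K, hK, fun t => ?_⟩
  have h1 := h.le_mul_dist t 0
  rw [map_zero, dist_zero_right, dist_zero_right] at h1
  exact h1

theorem task_FAR : S_FAR := by
  classical
  intro hFS D hV hP hD a hMx hDm d β Y hY hOk hV0 δ hδ
  have hSO := Pool.Agent.Q237.FAL.task_SO
  have haS : Sol D a [0, 0] 1 := hMx.1.sol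
  obtain ⟨a0, ha0, hq0⟩ := hY.q0
  choose δE hδS hδE using hY.E1
  obtain ⟨L, hL⟩ : ∃ L, L = lat hSO D a0 ha0.1 := ⟨_, rfl⟩
  have hLmem : ∀ {x : Fin D.length → Fin 6 → ℤ}, x ∈ L ↔ So D x 0 := by
    rw [hL]
    exact Iff.rfl
  have hYq : ∀ (N : ℕ) (t : Fin d → ℤ) (s : Fin D.length) (i : Fin 3),
      Y.q N t s i = cv (β s) ((((N : ℤ) - 1) • a0 + ∑ j, t j • δE j) s) i := by
    intro N t s i
    have e1 : (((N : ℤ) - 1) • a0 + ∑ j, t j • δE j) s =
        ((N : ℤ) - 1) • a0 s + ∑ j, t j • δE j s := by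
      rw [Pi.add_apply, Finset.sum_apply]
      rfl
    rw [e1, cv_add, cv_smul, cv_sum, ← hq0 s]
    unfold Nw.q
    simp only [hδE]
  have hyS : ∀ (N : ℕ) (t : Fin d → ℤ),
      Sol D (((N : ℤ) - 1) • a0 + ∑ j, t j • δE j) [0, 0] ((N : ℤ) - 1) := by
    intro N t
    have h1 : (∑ j, t j • δE j) ∈ L :=
      L.sum_mem fun j _ => L.smul_mem _ (hLmem.mpr (hδS j))
    have h2 := sol_add hSO (sol_smul hSO ((N : ℤ) - 1) ha0.1) (hLmem.mp h1).1
    simpa using h2
  have hqa : ∀ s i, cv (β s) (a s) i = qc (Y.α s) i := by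
    intro s i
    rw [hY.al s, qc_bf]
  obtain ⟨Kc, hKc, hlam⟩ := lam_bound Y hY.inj
  obtain ⟨δ', hδ'⟩ : ∃ δ' : ℝ, δ' = δ / (2 * Kc) := ⟨_, rfl⟩
  have hδ'0 : 0 < δ' := by rw [hδ']; positivity
  obtain ⟨c3, hc3, hgap⟩ := gap haS hDm β δ' hδ'0
  refine ⟨c3, hc3, fun w => ?_⟩
  choose C0 p0 hFw using fun s => hFS (w s)
  -- bound of the coordinates
  obtain ⟨M0, hM0⟩ : ∃ M0 : ℝ, M0 = ∑ s, ∑ i, |qc (Y.α s) i| := ⟨_, rfl⟩
  have hM00 : 0 ≤ M0 := by
    rw [hM0]
    exact Finset.sum_nonneg fun s _ => Finset.sum_nonneg fun i _ => abs_nonneg _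
  have hqM : ∀ s i, |qc (Y.α s) i| ≤ M0 := by
    intro s i
    rw [hM0]
    refine le_trans ?_ (Finset.single_le_sum (f := fun s => ∑ i, |qc (Y.α s) i|)
      (fun s _ => Finset.sum_nonneg fun i _ => abs_nonneg _) (Finset.mem_univ s))
    exact Finset.single_le_sum (f := fun i => |qc (Y.α s) i|) (fun i _ => abs_nonneg _)
      (Finset.mem_univ i)
  obtain ⟨T0, hT0⟩ : ∃ T0 : ℝ, T0 = ‖Y.τ‖ + Kc * (1 + M0) := ⟨_, rfl⟩
  have hT00 : 0 ≤ T0 := by rw [hT0]; positivity
  obtain ⟨N1, hN1⟩ := exists_nat_ge (2 * T0 / δ)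
  refine ⟨∏ s, |C0 s|, ∑ s, p0 s, max 2 N1, fun N hN t ht => ?_⟩
  have hN2 : 2 ≤ N := le_trans (le_max_left _ _) hN
  have hNN1 : N1 ≤ N := le_trans (le_max_right _ _) hN
  have hNR : (2 : ℝ) ≤ N := by exact_mod_cast hN2
  have hN0 : (0 : ℝ) < N := by linarith
  have hNm : (0 : ℝ) < (N : ℝ) - 1 := by linarith
  have hrhs : 0 ≤ (∏ s, |C0 s|) * (N : ℝ) ^ (∑ s, p0 s) *
      Real.exp (N * (∑ s, v0 (Y.α s) - c3)) := by
    have : 0 ≤ ∏ s, |C0 s| := Finset.prod_nonneg fun s _ => abs_nonneg _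
    positivity
  rcases eq_or_ne (∏ s, Fq N (w s) (Y.q N t s)) 0 with hz | hnz
  · rw [hz, norm_zero]
    exact hrhs
  have hne : ∀ s, Fq N (w s) (Y.q N t s) ≠ 0 := fun s => Finset.prod_ne_zero_iff.1 hnz s (Finset.mem_univ s)
  have hPs : ∀ s, Ps N (Y.q N t s) := by
    intro s
    by_contra hcon
    refine hne s ?_
    unfold Fq
    rw [if_neg hcon]
  have hex : ∀ s, ∃ x : Fin 6 → ℝ, Crn N (Y.q N t s 0).toNat (Y.q N t s 1).toNat
      (Y.q N t s 2).toNat x ∧ ‖Fq N (w s) (Y.q N t s)‖ ≤ C0 s * N ^ p0 s * Real.exp (N * pt x) := by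
    intro s
    obtain ⟨g0, g1, g2, g3⟩ := hPs s
    have h1 := hFw s N (Y.q N t s 0).toNat (Y.q N t s 1).toNat (Y.q N t s 2).toNat hN2 (by omega)
    have h2 : Fq N (w s) (Y.q N t s) = Pool.Agent.Q99.KN.Fk N (w s) (Y.q N t s 0).toNat
        (Y.q N t s 1).toNat (Y.q N t s 2).toNat := by
      unfold Fq
      rw [if_pos (hPs s)]
    rcases h1 with h1 | ⟨x, hx1, hx2⟩
    · exact absurd (h2.trans h1) (hne s)
    · refine ⟨x, hx1, ?_⟩
      rw [h2]
      exact hx2
  choose x hxC hxF using hex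
  -- the point of the polytope
  obtain ⟨z, hz⟩ : ∃ z : Fin D.length → Fin 6 → ℝ, z = fun s => bf (β s) (x s) := ⟨_, rfl⟩
  have hzs : ∀ s, z s = bf (β s) (x s) := fun s => by rw [hz]
  have hz0 : ∀ s i, 0 ≤ z s i := by
    intro s i
    rw [hzs]
    have h := (hxC s).nn
    cases β s
    · fin_cases i
      · exact h 0
      · exact h 2
      · exact h 1
      · exact h 3
      · exact h 5
      · exact h 4
    · exact h i
  have hzcv : ∀ s i, cv (β s) (z s) i = (Y.q N t s i : ℝ) / (N - 1) := by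
    intro s i
    rw [hzs, cv_bf]
    obtain ⟨g0, g1, g2, g3⟩ := hPs s
    have c0 := (hxC s).c0
    have c1 := (hxC s).c1
    have c2 := (hxC s).c2
    have e0 : (((Y.q N t s 0).toNat : ℕ) : ℝ) = ((Y.q N t s 0 : ℤ) : ℝ) := by
      have := Int.toNat_of_nonneg g0
      exact_mod_cast this
    have e1 : (((Y.q N t s 1).toNat : ℕ) : ℝ) = ((Y.q N t s 1 : ℤ) : ℝ) := by
      have := Int.toNat_of_nonneg g1
      exact_mod_cast this
    have e2 : (((Y.q N t s 2).toNat : ℕ) : ℝ) = ((Y.q N t s 2 : ℤ) : ℝ) := by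
      have := Int.toNat_of_nonneg g2
      exact_mod_cast this
    rw [e0] at c0
    rw [e1] at c1
    rw [e2] at c2
    rw [eq_div_iff hNm.ne', mul_comm]
    fin_cases i
    · exact c0
    · exact c1
    · exact c2
  have hzS : Sol D z [0, 0] 1 := by
    have h1 := sol_cast hSO (hyS N t)
    have h2 := sol_smul hSO (((N : ℝ) - 1)⁻¹) h1
    have e : ((N : ℝ) - 1)⁻¹ * (((N : ℤ) - 1 : ℤ) : ℝ) = 1 := by
      push_cast
      exact inv_mul_cancel₀ hNm.ne'
    rw [e] at h2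
    refine Sol_cor D _ _ _ _ (fun s => ?_) h2
    refine cor_of_cvR (β := β s) (fun i => ?_) ?_
    · rw [hzcv, hYq]
      have e3 : (((N : ℝ) - 1)⁻¹ • toR (((N : ℤ) - 1) • a0 + ∑ j, t j • δE j)) s =
          ((N : ℝ) - 1)⁻¹ • (fun j => (((((N : ℤ) - 1) • a0 + ∑ j, t j • δE j) s j : ℤ) : ℝ)) := rfl
      rw [e3, cv_smulR, cv_castR]
      ring
    · rw [((hSO.1 ℝ D _ [0, 0] _).mp h2).1 s, hzs, n1_bf, n2_bf, (hxC s).su]
  -- the point is far from `a`
  obtain ⟨t', ht'⟩ : ∃ t' : Fin d → ℝ, t' = fun j => (t j : ℝ) / (N - 1) - Y.τ j := ⟨_, rfl⟩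
  have hlt : ∀ s i, lam Y t' s i = cv (β s) (z s) i - cv (β s) (a s) i := by
    intro s i
    rw [hzcv, hqa, hY.ctr s i]
    show ∑ j, t' j * Y.E j s i = _
    have e1 : ((Y.q N t s i : ℤ) : ℝ) = ((N : ℝ) - 1) * Y.q0 s i + ∑ j, (t j : ℝ) * Y.E j s i := by
      unfold Nw.q
      push_cast
      rfl
    rw [e1, ht', add_div, mul_div_cancel_left₀ _ hNm.ne', Finset.sum_div]
    simp only [sub_mul, Finset.sum_sub_distrib]
    have e2 : ∀ j, (t j : ℝ) / (N - 1) * (Y.E j s i : ℝ) = (t j : ℝ) * Y.E j s i / (N - 1) := by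
      intro j
      ring
    simp only [e2]
    ring
  have hcvb : ∀ s i, 0 ≤ cv (β s) (z s) i ∧ cv (β s) (z s) i ≤ 1 := by
    intro s i
    obtain ⟨g0, g1, g2, g3⟩ := hPs s
    rw [hzcv, div_le_one hNm]
    have h1 : 0 ≤ Y.q N t s i ∧ Y.q N t s i ≤ (N : ℤ) - 1 := by
      fin_cases i
      · exact ⟨g0, by show Y.q N t s 0 ≤ _; omega⟩
      · exact ⟨g1, by show Y.q N t s 1 ≤ _; omega⟩
      · exact ⟨g2, by show Y.q N t s 2 ≤ _; omega⟩
    have h2 : (0 : ℝ) ≤ (Y.q N t s i : ℝ) := by exact_mod_cast h1.1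
    have h3 : (Y.q N t s i : ℝ) ≤ (N : ℝ) - 1 := by exact_mod_cast h1.2
    exact ⟨by positivity, h3⟩
  have hlb : ‖lam Y t'‖ ≤ 1 + M0 := by
    refine (pi_norm_le_iff_of_nonneg (by linarith)).2 fun s => ?_
    refine (pi_norm_le_iff_of_nonneg (by linarith)).2 fun i => ?_
    rw [Real.norm_eq_abs, hlt, hqa]
    have h1 := hcvb s i
    have h2 := abs_le.1 (hqM s i)
    rw [abs_le]
    constructor <;> linarith [h1.1, h1.2, h2.1, h2.2]
  obtain ⟨j0, hj0⟩ := ht
  have htj : |(t j0 : ℝ) / (N - 1)| ≤ T0 := by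
    have h1 : |t' j0| ≤ Kc * (1 + M0) := by
      have h2 := norm_le_pi_norm t' j0
      rw [Real.norm_eq_abs] at h2
      exact h2.trans ((hlam t').trans (mul_le_mul_of_nonneg_left hlb hKc.le))
    have h3 : |Y.τ j0| ≤ ‖Y.τ‖ := by
      have := norm_le_pi_norm Y.τ j0
      rwa [Real.norm_eq_abs] at this
    have e : (t j0 : ℝ) / (N - 1) = t' j0 + Y.τ j0 := by
      rw [ht']
      ring
    rw [e, hT0]
    have := abs_add_le (t' j0) (Y.τ j0)
    linarith
  have hdiff : |(t j0 : ℝ) / (N - 1) - (t j0 : ℝ) / N| ≤ δ / 2 := by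
    have e : (t j0 : ℝ) / (N - 1) - (t j0 : ℝ) / N = (t j0 : ℝ) / (N - 1) / N := by
      field_simp
      ring
    rw [e, abs_div, abs_of_pos hN0, div_le_iff₀ hN0]
    refine htj.trans ?_
    have h1 : 2 * T0 / δ ≤ N := hN1.trans (by exact_mod_cast hNN1)
    rw [div_le_iff₀ hδ] at h1
    linarith
  have htfar : δ / 2 < |t' j0| := by
    have e : (t j0 : ℝ) / N - Y.τ j0 = t' j0 - ((t j0 : ℝ) / (N - 1) - (t j0 : ℝ) / N) := by
      rw [ht']
      ring
    rw [e] at hj0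
    have := abs_sub (t' j0) ((t j0 : ℝ) / (N - 1) - (t j0 : ℝ) / N)
    linarith
  have hfar : ∃ s i, δ' ≤ |cv (β s) (z s) i - cv (β s) (a s) i| := by
    by_contra hcon
    push Not at hcon
    have h1 : ‖lam Y t'‖ ≤ δ' := by
      refine (pi_norm_le_iff_of_nonneg hδ'0.le).2 fun s => ?_
      refine (pi_norm_le_iff_of_nonneg hδ'0.le).2 fun i => ?_
      rw [Real.norm_eq_abs, hlt]
      exact (hcon s i).le
    have h2 := hlam t'
    have h3 := norm_le_pi_norm t' j0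
    rw [Real.norm_eq_abs] at h3
    have h4 : Kc * ‖lam Y t'‖ ≤ Kc * δ' := mul_le_mul_of_nonneg_left h1 hKc.le
    have h5 : Kc * δ' = δ / 2 := by
      rw [hδ']
      field_simp
    linarith
  have hsum := hgap z hz0 hzS hfar
  have hsum' : ∑ s, pt (x s) ≤ ∑ s, v0 (Y.α s) - c3 := by
    rw [hV0]
    refine le_trans (le_of_eq ?_) hsum
    refine Finset.sum_congr rfl fun s _ => ?_
    rw [hzs, pt_bf]
  rw [norm_prod]
  calc ∏ s, ‖Fq N (w s) (Y.q N t s)‖ ≤ ∏ s, (|C0 s| * N ^ p0 s * Real.exp (N * pt (x s))) := by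
        refine Finset.prod_le_prod (fun s _ => norm_nonneg _) fun s _ => ?_
        refine (hxF s).trans ?_
        have h1 := le_abs_self (C0 s)
        have h2 : (0 : ℝ) ≤ N ^ p0 s * Real.exp (N * pt (x s)) := by positivity
        have h3 := mul_le_mul_of_nonneg_right h1 h2
        calc C0 s * N ^ p0 s * Real.exp (N * pt (x s)) =
            C0 s * (N ^ p0 s * Real.exp (N * pt (x s))) := by ring
          _ ≤ |C0 s| * (N ^ p0 s * Real.exp (N * pt (x s))) := h3
          _ = _ := by ring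
    _ = (∏ s, |C0 s|) * (N : ℝ) ^ (∑ s, p0 s) * Real.exp (N * ∑ s, pt (x s)) := by
        rw [Finset.prod_mul_distrib, Finset.prod_mul_distrib, Finset.prod_pow_eq_pow_sum,
          ← Real.exp_sum, ← Finset.mul_sum]
    _ ≤ _ := by
        apply mul_le_mul_of_nonneg_left
        · apply Real.exp_le_exp.2
          exact mul_le_mul_of_nonneg_left hsum' hN0.le
        · have : 0 ≤ ∏ s, |C0 s| := Finset.prod_nonneg fun s _ => abs_nonneg _
          positivity

end Pool.Agent.Q151.HU
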