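import Pool.Agent.Q99.HU.Stm1
import Pool.Agent.W51.BS.Stir
import Pool.Agent.W719.BS.LLp

/-!
# Job HU-LBD of helper99: the products `D N m`
-/

set_option autoImplicit false

namespace Pool.Agent.Q151.HU

open Finset Filter Topology MeasureTheory
open Pool.Agent.W719.BS (D LL LL_sub' LL_cont S_STIR)
open Pool.Agent.W358.BSTay (gg gg_int)
open Pool.Agent.Q99.HU

theorem gg_le {t : ℝ} (h0 : 0 ≤ t) (h1 : t ≤ 1) : gg t ≤ Real.log 2 := by
  unfold gg
  have hs : 0 ≤ Real.sin (Real.pi * t) :=
    Real.sin_nonneg_of_nonneg_of_le_pi (by positivity) (by nlinarith [Real.pi_pos])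
  rcases hs.eq_or_lt with h | h
  · rw [← h, mul_zero, Real.log_zero]
    exact (Real.log_pos (by norm_num)).le
  · exact Real.log_le_log (by positivity) (by linarith [Real.sin_le_one (Real.pi * t)])

theorem two_mul_le_sin {t : ℝ} (h0 : 0 ≤ t) (h1 : t ≤ 1 / 2) : 2 * t ≤ Real.sin (Real.pi * t) := by
  have h := Real.mul_le_sin (x := Real.pi * t) (by positivity) (by nlinarith [Real.pi_pos])
  have e : 2 / Real.pi * (Real.pi * t) = 2 * t := by
    have := Real.pi_pos.ne'
    field_simp
  linarith

theorem le_gg {t : ℝ} (h0 : 0 ≤ t) (h1 : t ≤ 1) : -gg t ≤ -Real.log t - Real.log (1 - t) := by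
  rcases h0.eq_or_lt with h | h0
  · rw [← h]
    unfold gg
    simp
  rcases h1.eq_or_lt with h | h1
  · rw [h]
    unfold gg
    simp
  have h2 : 2 * (t * (1 - t)) ≤ Real.sin (Real.pi * t) := by
    rcases le_total t (1 / 2) with h | h
    · have := two_mul_le_sin h0.le h
      nlinarith
    · have h3 := two_mul_le_sin (t := 1 - t) (by linarith) (by linarith)
      have e : Real.pi * (1 - t) = Real.pi - Real.pi * t := by ring
      rw [e, Real.sin_pi_sub] at h3
      nlinarith
  have h3 : 0 < t * (1 - t) := mul_pos h0 (by linarith)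
  have h4 : Real.log (t * (1 - t)) ≤ gg t := by
    unfold gg
    exact Real.log_le_log h3 (by linarith)
  rw [Real.log_mul h0.ne' (by linarith)] at h4
  linarith

/-- `∫ log` over a short interval -/
theorem int_log {x y a : ℝ} (hx : 0 ≤ x) (hxy : x ≤ y) (hya : y - x ≤ a) (ha : 0 < a) (ha1 : a ≤ 1) :
    ∫ t in x..y, -Real.log t ≤ a * (2 - Real.log a) := by
  rw [intervalIntegral.integral_neg, integral_log]
  rcases hxy.eq_or_lt with h | hlt
  · rw [h]
    have : Real.log a ≤ 0 := Real.log_nonpos ha.le ha1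
    nlinarith
  have hy : 0 < y := by linarith
  have hd : 0 < y - x := by linarith
  have h1 : x * Real.log x ≤ x * Real.log y := by
    rcases hx.eq_or_lt with h | h
    · rw [← h]; simp
    · exact mul_le_mul_of_nonneg_left (Real.log_le_log h hxy) hx
  have h2 : (y - x) * Real.log (y - x) ≤ (y - x) * Real.log y :=
    mul_le_mul_of_nonneg_left (Real.log_le_log hd (by linarith)) hd.le
  have h3 : (y - x) * (Real.log a - Real.log (y - x)) ≤ a := by
    rw [← Real.log_div ha.ne' hd.ne']
    have h4 := Real.log_le_self (show 0 ≤ a / (y - x) by positivity)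
    calc (y - x) * Real.log (a / (y - x)) ≤ (y - x) * (a / (y - x)) :=
          mul_le_mul_of_nonneg_left h4 hd.le
      _ = a := by field_simp
  have h5 : Real.log a ≤ 0 := Real.log_nonpos ha.le ha1
  nlinarith

theorem LL_lip {x y a : ℝ} (hx : 0 ≤ x) (hxy : x ≤ y) (hy : y ≤ 1) (hya : y - x ≤ a) (ha : 0 < a)
    (ha1 : a ≤ 1) : |LL y - LL x| ≤ 2 * (a * (2 - Real.log a)) := by
  have h5 : Real.log a ≤ 0 := Real.log_nonpos ha.le ha1
  rw [LL_sub', abs_le]
  constructor
  · have i1 : IntervalIntegrable (fun t => -Real.log t) volume x y :=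
      (intervalIntegral.intervalIntegrable_log').neg
    have i2 : IntervalIntegrable (fun t => -Real.log (1 - t)) volume x y := by
      have h := (intervalIntegral.intervalIntegrable_log' (a := 1 - x) (b := 1 - y)).comp_sub_left 1
      simp only [sub_sub_cancel] at h
      exact h.neg
    have h1 : ∫ t in x..y, -gg t ≤ ∫ t in x..y, (-Real.log t + -Real.log (1 - t)) := by
      refine intervalIntegral.integral_mono_on hxy (gg_int x y).neg (i1.add i2) ?_
      intro t ht
      have := le_gg (hx.trans ht.1) (ht.2.trans hy)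
      linarith
    rw [intervalIntegral.integral_neg, intervalIntegral.integral_add i1 i2] at h1
    have h2 := int_log hx hxy hya ha ha1
    have h3 : ∫ t in x..y, -Real.log (1 - t) ≤ a * (2 - Real.log a) := by
      have h4 := intervalIntegral.integral_comp_sub_left (a := x) (b := y)
        (fun t => -Real.log t) 1
      rw [h4]
      exact int_log (by linarith) (by linarith) (by linarith) ha ha1
    linarith
  · have h1 : ∫ t in x..y, gg t ≤ ∫ t in x..y, Real.log 2 := by
      refine intervalIntegral.integral_mono_on hxy (gg_int x y) (by simp) ?_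
      intro t ht
      exact gg_le (hx.trans ht.1) (ht.2.trans hy)
    rw [intervalIntegral.integral_const, smul_eq_mul] at h1
    have h2 : Real.log 2 ≤ 1 := by linarith [Real.log_two_lt_d9]
    have h3 : 0 ≤ Real.log 2 := (Real.log_pos (by norm_num)).le
    nlinarith

/-- the shift of the argument costs a power of `N` only -/
theorem shift {N m : ℕ} (hN : 2 ≤ N) (hm : m < N) :
    |(N : ℝ) * LL ((m : ℝ) / (N - 1)) - N * LL (((m : ℝ) + 1 / 2) / N)| ≤ 3 + Real.log N := by
  have hN2 : (2 : ℝ) ≤ N := by exact_mod_cast hN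
  have hN0 : (0 : ℝ) < N := by linarith
  have hN1 : (0 : ℝ) < N - 1 := by linarith
  have hmN : (m : ℝ) + 1 ≤ N := by exact_mod_cast hm
  have hm0 : (0 : ℝ) ≤ m := Nat.cast_nonneg m
  obtain ⟨x, hx⟩ : ∃ x : ℝ, x = (m : ℝ) / (N - 1) := ⟨_, rfl⟩
  obtain ⟨y, hy⟩ : ∃ y : ℝ, y = ((m : ℝ) + 1 / 2) / N := ⟨_, rfl⟩
  have hx0 : 0 ≤ x := by rw [hx]; positivity
  have hx1 : x ≤ 1 := by rw [hx, div_le_one hN1]; linarith
  have hy0 : 0 ≤ y := by rw [hy]; positivity
  have hy1 : y ≤ 1 := by rw [hy, div_le_one hN0]; linarith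
  have hd : |x - y| ≤ 1 / (2 * N) := by
    have e : x - y = ((m : ℝ) - (N - 1) / 2) / (N * (N - 1)) := by
      rw [hx, hy]
      field_simp
      ring
    rw [e, abs_div, abs_of_pos (mul_pos hN0 hN1), div_le_div_iff₀ (by positivity) (by positivity)]
    have h1 : |(m : ℝ) - (N - 1) / 2| ≤ (N - 1) / 2 := by
      rw [abs_le]; constructor <;> linarith
    nlinarith
  have ha : (0 : ℝ) < 1 / (2 * N) := by positivity
  have ha1 : 1 / (2 * (N : ℝ)) ≤ 1 := by
    rw [div_le_one (by positivity)]; linarith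
  have key : |LL x - LL y| ≤ 2 * (1 / (2 * (N : ℝ)) * (2 - Real.log (1 / (2 * (N : ℝ))))) := by
    rcases le_total x y with h | h
    · rw [abs_sub_comm]
      refine LL_lip hx0 h hy1 ?_ ha ha1
      have := (abs_le.1 hd).1
      linarith
    · exact LL_lip hy0 h hx1 ((le_abs_self _).trans hd) ha ha1
  rw [← hx, ← hy, ← mul_sub, abs_mul, abs_of_pos hN0]
  have e2 : Real.log (1 / (2 * (N : ℝ))) = -(Real.log 2 + Real.log N) := by
    rw [one_div, Real.log_inv, Real.log_mul (by norm_num) hN0.ne']
  have h3 := mul_le_mul_of_nonneg_left key hN0.le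
  rw [e2] at h3
  have e3 : (N : ℝ) * (2 * (1 / (2 * (N : ℝ)) * (2 - -(Real.log 2 + Real.log N)))) =
      2 + Real.log 2 + Real.log N := by
    field_simp
    ring
  rw [e3] at h3
  have := Real.log_two_lt_d9
  linarith

theorem task_LBD : S_LBD := by
  obtain ⟨C, hC⟩ := Pool.Agent.W51.BS.task_stir.1
  refine ⟨Real.exp (|C| + 3), Real.exp_pos _, fun N m hN hm => ?_⟩
  have hN2 : (2 : ℝ) ≤ N := by exact_mod_cast hN
  have hN0 : (0 : ℝ) < N := by linarith
  have hD := Pool.Agent.W51.BS.D_pos hm
  have hl : 0 ≤ Real.log N := Real.log_nonneg (by linarith)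
  have h1 := abs_le.1 (hC N m hm)
  have h2 := abs_le.1 (shift hN hm)
  have h3 := le_abs_self C
  have e : (N : ℝ) ^ 2 = Real.exp (2 * Real.log N) := by
    rw [two_mul, Real.exp_add, Real.exp_log hN0, sq]
  constructor
  · rw [e, ← Real.exp_add, ← Real.exp_add]
    calc D N m = Real.exp (Real.log (D N m)) := (Real.exp_log hD).symm
      _ ≤ _ := by
        apply Real.exp_le_exp.2
        linarith [h1.1, h1.2, h2.1, h2.2]
  · rw [e, ← Real.exp_add]
    calc Real.exp (N * LL ((m : ℝ) / (N - 1))) ≤ Real.exp (|C| + 3 + 2 * Real.log N + Real.log (D N m)) := by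
          apply Real.exp_le_exp.2
          linarith [h1.1, h1.2, h2.1, h2.2]
      _ = _ := by
          rw [Real.exp_add _ (Real.log (D N m)), Real.exp_log hD]

end Pool.Agent.Q151.HU
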