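import Pool.Agent.Q99.HU.Stm1
import Pool.Agent.Q208.HT.D1
import Pool.Agent.W719.BS.LLp

/-!
# Job HU-PTB of helper99: products of brackets
-/

set_option autoImplicit false

namespace Pool.Agent.Q151.HU

open Finset Filter Topology MeasureTheory
open Pool.Agent.W719.BS (D LL LL_refl D_pos)
open Pool.Agent.Q99.FAL (bq dn n1 n2)
open Pool.Agent.Q208.HT (bq_val bq_zero bq_nonneg')
open Pool.Agent.Q99.HU

theorem LL_neg (x : ℝ) : LL (-x) = -LL x := by
  unfold LL
  have h := intervalIntegral.integral_comp_neg (a := 0) (b := x)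
    (fun t => Real.log (2 * Real.sin (Real.pi * t)))
  rw [neg_zero] at h
  rw [intervalIntegral.integral_symm, ← h]
  congr 1
  refine intervalIntegral.integral_congr fun t _ => ?_
  show Real.log (2 * Real.sin (Real.pi * -t)) = Real.log (2 * Real.sin (Real.pi * t))
  rw [mul_neg, Real.sin_neg, mul_neg, Real.log_neg_eq_log]

theorem LL_one_sub (x : ℝ) : LL (1 - x) = -LL x := by
  have h := LL_refl (1 / 2 - x)
  have e1 : (1 / 2 : ℝ) + (1 / 2 - x) = 1 - x := by ring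
  have e2 : (1 / 2 : ℝ) - (1 / 2 - x) = x := by ring
  rw [e1, e2] at h
  exact h

/-- the two bounds for a bracket -/
theorem bq_bounds {N n k : ℕ} {K : ℝ} (hK : 0 < K)
    (h : ∀ m : ℕ, m < N → D N m ≤ K * Real.exp (N * LL ((m : ℝ) / (N - 1))) ∧
      Real.exp (N * LL ((m : ℝ) / (N - 1))) ≤ K * D N m) (hn : n < N) (hk : k ≤ n) :
    bq N n k ≤ K ^ 3 * Real.exp (N * (LL ((n : ℝ) / (N - 1)) - LL (((n : ℝ) - k) / (N - 1)) -
      LL ((k : ℝ) / (N - 1)))) ∧
    1 / bq N n k ≤ K ^ 3 * Real.exp (N * (LL (((n : ℝ) - k) / (N - 1)) + LL ((k : ℝ) / (N - 1)) -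
      LL ((n : ℝ) / (N - 1)))) := by
  have p1 := D_pos N n hn
  have p2 := D_pos N (n - k) (by omega)
  have p3 := D_pos N k (by omega)
  have h1 := h n hn
  have h2 := h (n - k) (by omega)
  have h3 := h k (by omega)
  rw [Nat.cast_sub hk] at h2
  rw [bq_val hn hk]
  obtain ⟨E1, hE1⟩ : ∃ E1 : ℝ, E1 = Real.exp (N * LL ((n : ℝ) / (N - 1))) := ⟨_, rfl⟩
  obtain ⟨E2, hE2⟩ : ∃ E2 : ℝ, E2 = Real.exp (N * LL (((n : ℝ) - k) / (N - 1))) := ⟨_, rfl⟩
  obtain ⟨E3, hE3⟩ : ∃ E3 : ℝ, E3 = Real.exp (N * LL ((k : ℝ) / (N - 1))) := ⟨_, rfl⟩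
  have q1 : 0 < E1 := by rw [hE1]; exact Real.exp_pos _
  have q2 : 0 < E2 := by rw [hE2]; exact Real.exp_pos _
  have q3 : 0 < E3 := by rw [hE3]; exact Real.exp_pos _
  have e1 : Real.exp (N * (LL ((n : ℝ) / (N - 1)) - LL (((n : ℝ) - k) / (N - 1)) -
      LL ((k : ℝ) / (N - 1)))) = E1 / (E2 * E3) := by
    rw [hE1, hE2, hE3, ← Real.exp_add, ← Real.exp_sub]
    congr 1
    ring
  have e2 : Real.exp (N * (LL (((n : ℝ) - k) / (N - 1)) + LL ((k : ℝ) / (N - 1)) -
      LL ((n : ℝ) / (N - 1)))) = E2 * E3 / E1 := by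
    rw [hE1, hE2, hE3, ← Real.exp_add, ← Real.exp_sub]
    congr 1
    ring
  rw [e1, e2]
  rw [← hE1] at h1
  rw [← hE2] at h2
  rw [← hE3] at h3
  constructor
  · rw [← mul_div_assoc, div_le_div_iff₀ (by positivity) (by positivity)]
    have h4 : E2 * E3 ≤ (K * D N (n - k)) * (K * D N k) :=
      mul_le_mul h2.2 h3.2 q3.le (by positivity)
    have h5 : D N n * (E2 * E3) ≤ (K * E1) * ((K * D N (n - k)) * (K * D N k)) :=
      mul_le_mul h1.1 h4 (by positivity) (by positivity)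
    refine h5.trans (le_of_eq ?_)
    ring
  · rw [one_div_div, ← mul_div_assoc, div_le_div_iff₀ (by positivity) (by positivity)]
    have h4 : D N (n - k) * D N k ≤ (K * E2) * (K * E3) :=
      mul_le_mul h2.1 h3.1 p3.le (by positivity)
    have h5 : D N (n - k) * D N k * E1 ≤ ((K * E2) * (K * E3)) * (K * D N n) :=
      mul_le_mul h4 h1.2 q1.le (by positivity)
    refine h5.trans (le_of_eq ?_)
    ring

theorem mul_exp_le {a b A B x y : ℝ} (ha : 0 ≤ a) (hb : 0 ≤ b) (hA : 0 ≤ A) (h1 : a ≤ A * Real.exp x)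
    (h2 : b ≤ B * Real.exp y) : a * b ≤ A * B * Real.exp (x + y) := by
  have h3 : a * b ≤ (A * Real.exp x) * (B * Real.exp y) :=
    mul_le_mul h1 h2 hb (by positivity)
  rw [Real.exp_add]
  refine h3.trans (le_of_eq ?_)
  ring

theorem task_PTB : S_PTB := by
  rintro ⟨C, hC, hL⟩
  refine ⟨C ^ 18, 36, fun N n m a hN hnm ha1 ha2 => ?_⟩
  have hN2 : (2 : ℝ) ≤ N := by exact_mod_cast hN
  have hN0 : (0 : ℝ) < N := by linarith
  have hN1 : (0 : ℝ) < N - 1 := by linarith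
  obtain ⟨K, hK⟩ : ∃ K : ℝ, K = C * N ^ 2 := ⟨_, rfl⟩
  have hK0 : 0 < K := by rw [hK]; positivity
  have hL' : ∀ m : ℕ, m < N → D N m ≤ K * Real.exp (N * LL ((m : ℝ) / (N - 1))) ∧
      Real.exp (N * LL ((m : ℝ) / (N - 1))) ≤ K * D N m := by
    intro m hm
    rw [hK]
    exact hL N m hN hm
  have hn : n < N := by omega
  have hm : m < N := by omega
  have hnmR : (n : ℝ) + m = N - 1 := by
    have : ((n + m + 1 : ℕ) : ℝ) = N := by rw [hnm]
    push_cast at this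
    linarith
  have en : n1 (fun i => (a i : ℝ) / (N - 1)) = (n : ℝ) / (N - 1) := by
    have : ((a 0 + a 1 + a 2 : ℕ) : ℝ) = n := by rw [ha1]
    push_cast at this
    unfold n1
    rw [← this]
    ring
  have em : n2 (fun i => (a i : ℝ) / (N - 1)) = (m : ℝ) / (N - 1) := by
    have : ((a 3 + a 4 + a 5 : ℕ) : ℝ) = m := by rw [ha2]
    push_cast at this
    unfold n2
    rw [← this]
    ring
  have ept : pt (fun i => (a i : ℝ) / (N - 1)) =
      (LL ((m : ℝ) / (N - 1)) - LL (((m : ℝ) - a 0) / (N - 1)) - LL ((a 0 : ℝ) / (N - 1))) +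
      (LL ((n : ℝ) / (N - 1)) - LL (((n : ℝ) - a 1) / (N - 1)) - LL ((a 1 : ℝ) / (N - 1))) +
      (LL ((n : ℝ) / (N - 1)) - LL (((n : ℝ) - a 2) / (N - 1)) - LL ((a 2 : ℝ) / (N - 1))) +
      (LL ((n : ℝ) / (N - 1)) - LL (((n : ℝ) - a 3) / (N - 1)) - LL ((a 3 : ℝ) / (N - 1))) +
      (LL ((m : ℝ) / (N - 1)) - LL (((m : ℝ) - a 4) / (N - 1)) - LL ((a 4 : ℝ) / (N - 1))) +
      (LL ((m : ℝ) / (N - 1)) - LL (((m : ℝ) - a 5) / (N - 1)) - LL ((a 5 : ℝ) / (N - 1))) := by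
    have d0 : dn (fun i => (a i : ℝ) / (N - 1)) 0 = (m : ℝ) / (N - 1) := by
      unfold dn; rw [if_pos (by decide), em]
    have d1 : dn (fun i => (a i : ℝ) / (N - 1)) 1 = (n : ℝ) / (N - 1) := by
      unfold dn; rw [if_neg (by decide), en]
    have d2 : dn (fun i => (a i : ℝ) / (N - 1)) 2 = (n : ℝ) / (N - 1) := by
      unfold dn; rw [if_neg (by decide), en]
    have d3 : dn (fun i => (a i : ℝ) / (N - 1)) 3 = (n : ℝ) / (N - 1) := by
      unfold dn; rw [if_neg (by decide), en]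
    have d4 : dn (fun i => (a i : ℝ) / (N - 1)) 4 = (m : ℝ) / (N - 1) := by
      unfold dn; rw [if_pos (by decide), em]
    have d5 : dn (fun i => (a i : ℝ) / (N - 1)) 5 = (m : ℝ) / (N - 1) := by
      unfold dn; rw [if_pos (by decide), em]
    unfold pt
    rw [Fin.sum_univ_six, d0, d1, d2, d3, d4, d5]
    simp only [sub_div]
  have b1 := (bq_bounds hK0 hL' hn (show a 1 ≤ n by omega)).1
  have b2 := (bq_bounds hK0 hL' hn (show a 2 ≤ n by omega)).1
  have b4 := (bq_bounds hK0 hL' hm (show a 4 ≤ m by omega)).1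
  have b5 := (bq_bounds hK0 hL' hm (show a 5 ≤ m by omega)).1
  have p1 : 0 ≤ bq N n (a 1) := bq_nonneg' hn
  have p2 : 0 ≤ bq N n (a 2) := bq_nonneg' hn
  have p4 : 0 ≤ bq N m (a 4) := bq_nonneg' hm
  have p5 : 0 ≤ bq N m (a 5) := bq_nonneg' hm
  have p3 : 0 ≤ bq N n (a 3) := bq_nonneg' hn
  have p0 : 0 ≤ bq N m (a 0) := bq_nonneg' hm
  have K3 : 0 ≤ K ^ 3 := by positivity
  have eK : K ^ 18 = C ^ 18 * (N : ℝ) ^ 36 := by rw [hK]; ring
  have b14 := mul_exp_le p1 p4 K3 b1 b4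
  have b25 := mul_exp_le p2 p5 K3 b2 b5
  refine ⟨fun h0 h3 => ?_, fun h0 => ?_⟩
  · have b0 := (bq_bounds hK0 hL' hm h0).1
    have b3 := (bq_bounds hK0 hL' hn h3).1
    have c1 := mul_exp_le p0 p3 K3 b0 b3
    have c2 := mul_exp_le (mul_nonneg p0 p3) (mul_nonneg p1 p4) (by positivity) c1 b14
    have c3 := mul_exp_le (mul_nonneg (mul_nonneg p0 p3) (mul_nonneg p1 p4)) (mul_nonneg p2 p5)
      (by positivity) c2 b25
    refine c3.trans (le_of_eq ?_)
    rw [← eK, ept]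
    congr 1
    · ring
    · congr 1
      ring
  · rcases le_or_gt (a 3) n with h3 | h3
    · have b3 := (bq_bounds hK0 hL' hn h3).1
      have b0 := (bq_bounds hK0 hL' hn (show a 0 - m ≤ n by omega)).2
      have p0' : 0 ≤ 1 / bq N n (a 0 - m : ℕ) := by
        have : 0 ≤ bq N n (a 0 - m : ℕ) := bq_nonneg' hn
        positivity
      have ha0 : (((a 0 - m : ℕ)) : ℝ) = (a 0 : ℝ) - m := Nat.cast_sub h0.le
      rw [ha0] at b0
      have f1 : LL (((n : ℝ) - ((a 0 : ℝ) - m)) / (N - 1)) = -LL ((a 0 : ℝ) / (N - 1)) := by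
        rw [← LL_one_sub]
        congr 1
        rw [eq_sub_iff_add_eq, ← add_div, div_eq_one_iff_eq hN1.ne']
        linarith
      have f2 : LL ((n : ℝ) / (N - 1)) = -LL ((m : ℝ) / (N - 1)) := by
        rw [← LL_one_sub]
        congr 1
        rw [eq_sub_iff_add_eq, ← add_div, div_eq_one_iff_eq hN1.ne']
        linarith
      have f3 : LL (((a 0 : ℝ) - m) / (N - 1)) = -LL (((m : ℝ) - a 0) / (N - 1)) := by
        rw [← LL_neg]
        congr 1
        ring
      have c1 := mul_exp_le p3 (mul_nonneg p1 p4) K3 b3 b14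
      have c2 := mul_exp_le (mul_nonneg p3 (mul_nonneg p1 p4)) (mul_nonneg p2 p5) (by positivity) c1
        b25
      have c3 := mul_exp_le (mul_nonneg (mul_nonneg p3 (mul_nonneg p1 p4)) (mul_nonneg p2 p5)) p0'
        (by positivity) c2 b0
      rw [← mul_div_assoc, mul_one] at c3
      refine c3.trans (le_of_eq ?_)
      rw [← eK, ept, f1, f3]
      congr 1
      · ring
      · congr 1
        rw [f2]
        ring
    · have hz : bq N n (a 3) = 0 := bq_zero h3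
      rw [hz, zero_mul, zero_mul, zero_div]
      positivity

end Pool.Agent.Q151.HU
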